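import Mathlib
import Pool.Agent.Run7.h940.PACH.Iface

set_option autoImplicit false

namespace Run7.h898.PACH

open Run7.h940.PACH Finset Module

theorem phi_pos_iff {d : ℕ} (z : Fin d → ℤ) (p : Fin d → ℝ) :
    0 < phi z p ↔ (∀ i, |p i - z i| < 1) ∧
      ∀ i i', Odd (z i) → ¬ Odd (z i') → |p i - z i| + |p i' - z i'| < 1 := by
  unfold phi
  constructor
  · intro h
    have h1 := left_ne_zero_of_mul h.ne'
    have h2 := right_ne_zero_of_mul h.ne'
    rw [Finset.prod_ne_zero_iff] at h1 h2
    refine ⟨fun i => ?_, fun i i' hi hi' => ?_⟩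
    · have := h1 i (Finset.mem_univ i)
      by_contra hc
      exact this (max_eq_left (by linarith))
    · have h3 := h2 i (by simpa using hi)
      rw [Finset.prod_ne_zero_iff] at h3
      have := h3 i' (by simpa using hi')
      by_contra hc
      exact this (max_eq_left (by linarith))
  · rintro ⟨h1, h2⟩
    apply mul_pos
    · exact Finset.prod_pos fun i _ => lt_max_of_lt_right (by linarith [h1 i])
    · refine Finset.prod_pos fun i hi => Finset.prod_pos fun i' hi' => ?_
      simp only [Finset.mem_filter, Finset.mem_univ, true_and] at hi hi'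
      exact lt_max_of_lt_right (by linarith [h2 i i' hi hi'])

/-- The nearest even and odd integers. -/
theorem exists_ev_od (p : ℝ) : ∃ (e o : ℤ) (s : ℝ), ¬ Odd e ∧ Odd o ∧ |e - o| = 1 ∧ 0 ≤ s ∧ s ≤ 1 ∧
    |p - e| = s ∧ |p - o| = 1 - s := by
  have hr := abs_sub_round (p / 2)
  set r := round (p / 2) with hrdef
  have hle : |p - ((2 * r : ℤ) : ℝ)| ≤ 1 := by
    have : p - ((2 * r : ℤ) : ℝ) = 2 * (p / 2 - r) := by push_cast; ring
    rw [this, abs_mul, abs_two]
    linarith
  have hne : ¬ Odd (2 * r) := by
    rw [Int.not_odd_iff_even]; exact even_two_mul r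
  by_cases h : ((2 * r : ℤ) : ℝ) ≤ p
  · refine ⟨2 * r, 2 * r + 1, |p - ((2 * r : ℤ) : ℝ)|, hne, ⟨r, rfl⟩, ?_, abs_nonneg _, hle, rfl, ?_⟩
    · have : (2 * r - (2 * r + 1) : ℤ) = -1 := by ring
      rw [this]; rfl
    · rw [abs_of_nonneg (by linarith : (0 : ℝ) ≤ p - ((2 * r : ℤ) : ℝ))] at hle ⊢
      have : p - ((2 * r + 1 : ℤ) : ℝ) = -(1 - (p - ((2 * r : ℤ) : ℝ))) := by push_cast; ring
      rw [this, abs_neg, abs_of_nonneg (by linarith)]
  · push Not at h
    refine ⟨2 * r, 2 * r - 1, |p - ((2 * r : ℤ) : ℝ)|, hne, ⟨r - 1, by ring⟩, ?_, abs_nonneg _,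
      hle, rfl, ?_⟩
    · have : (2 * r - (2 * r - 1) : ℤ) = 1 := by ring
      rw [this]; rfl
    · rw [abs_of_neg (by linarith : p - ((2 * r : ℤ) : ℝ) < 0)] at hle ⊢
      have : p - ((2 * r - 1 : ℤ) : ℝ) = (1 + (p - ((2 * r : ℤ) : ℝ))) := by push_cast; ring
      rw [this, abs_of_nonneg (by linarith)]
      ring

/-- Two integers of the same parity near the same point are equal. -/
theorem eq_of_near {p : ℝ} {a b : ℤ} (hab : Odd a ↔ Odd b) (ha : |p - a| < 1) (hb : |p - b| ≤ 1) :
    a = b := by
  have h : |((a - b : ℤ) : ℝ)| < 2 := by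
    have : ((a - b : ℤ) : ℝ) = (p - b) - (p - a) := by push_cast; ring
    rw [this]
    calc |(p - b) - (p - a)| ≤ |p - b| + |p - a| := abs_sub _ _
      _ < 2 := by linarith
  have h2 : |a - b| < 2 := by exact_mod_cast h
  rw [abs_lt] at h2
  have hev : Even (a - b) := by
    rw [Int.even_sub, ← Int.not_odd_iff_even, ← Int.not_odd_iff_even, hab]
  obtain ⟨c, hc⟩ := hev
  omega

/-- A lower set of `Fin d` is an initial segment. -/
theorem lower_eq {d : ℕ} (A : Finset (Fin d)) (hA : ∀ a ∈ A, ∀ b, b ≤ a → b ∈ A) (k : Fin d) :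
    k ∈ A ↔ (k : ℕ) < A.card := by
  constructor
  · intro hk
    have : Finset.Iic k ⊆ A := fun b hb => hA k hk b (Finset.mem_Iic.1 hb)
    have := Finset.card_le_card this
    rw [Fin.card_Iic] at this
    omega
  · intro hk
    by_contra hc
    have : A ⊆ Finset.Iio k := by
      intro a ha
      rw [Finset.mem_Iio]
      by_contra hn
      exact hc (hA a ha k (not_lt.1 hn))
    have := Finset.card_le_card this
    rw [Fin.card_Iio] at this
    omega

theorem t_GM1 : S_GM1 := by
  intro d p
  classical
  choose ev od s hev hod heo hs0 hs1 hse hso using fun i => exists_ev_od (p i)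
  refine ⟨⟨fun i => if 1 / 2 < s i then od i else ev i, ?_⟩, ?_⟩
  · rw [phi_pos_iff]
    have habs : ∀ i, |p i - ((if 1 / 2 < s i then od i else ev i : ℤ) : ℝ)| =
        if 1 / 2 < s i then 1 - s i else s i := by
      intro i
      split_ifs with h
      · exact hso i
      · exact hse i
    refine ⟨fun i => ?_, fun i i' hi hi' => ?_⟩
    · rw [habs i]
      split_ifs with h
      · linarith
      · push Not at h; linarith
    · rw [habs i, habs i']
      have h1 : 1 / 2 < s i := by
        by_contra h
        simp only [h, if_false] at hi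
        exact hev i hi
      have h2 : ¬ 1 / 2 < s i' := by
        intro h
        simp only [h, if_true] at hi'
        exact hi' (hod i')
      rw [if_pos h1, if_neg h2]
      push Not at h2
      linarith
  · set σ := Tuple.sort (fun i => -s i) with hσ
    have hmono : Monotone ((fun i => -s i) ∘ σ) := Tuple.monotone_sort _
    let w : Fin (d + 1) → (Fin d → ℤ) := fun j i => if (σ.symm i : ℕ) < (j : ℕ) then od i else ev i
    have hwodd : ∀ j i, Odd (w j i) ↔ (σ.symm i : ℕ) < (j : ℕ) := by
      intro j i
      by_cases h : (σ.symm i : ℕ) < (j : ℕ)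
      · simp only [w, h, if_true, iff_true]; exact hod i
      · simp only [w, h, if_false, iff_false]; exact hev i
    refine ⟨w, ⟨?_, ?_⟩, ?_, ?_⟩
    · intro j
      unfold rk
      have h1 : (univ.filter fun i => Odd (w j i)) =
          (univ.filter fun k : Fin d => (k : ℕ) < (j : ℕ)).map σ.toEmbedding := by
        ext i
        simp only [Finset.mem_filter, Finset.mem_univ, true_and, Finset.mem_map, hwodd]
        constructor
        · intro h
          exact ⟨σ.symm i, h, by simp⟩
        · rintro ⟨k, hk, rfl⟩
          simpa using hk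
      rw [h1, Finset.card_map]
      have : (univ.filter fun k : Fin d => (k : ℕ) < (j : ℕ)).card = (j : ℕ) := by
        rw [Fin.card_filter_val_lt]
        have := j.2
        omega
      exact this
    · intro j i
      rcases lt_trichotomy ((σ.symm i : ℕ)) (j : ℕ) with h | h | h
      · left
        simp only [w, Fin.val_castSucc, Fin.val_succ]
        rw [if_pos h, if_pos (by omega)]
      · right
        refine ⟨(hwodd _ _).2 (by simp only [Fin.val_succ]; omega), ?_⟩
        simp only [w, Fin.val_castSucc, Fin.val_succ]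
        rw [if_neg (by omega), if_pos (by omega)]
        exact heo i
      · left
        simp only [w, Fin.val_castSucc, Fin.val_succ]
        rw [if_neg (by omega), if_neg (by omega)]
    · intro i
      have : w 0 i = ev i := if_neg (Nat.not_lt_zero _)
      rw [this, abs_sub_comm, hse i]
      exact hs1 i
    · intro z hz
      rw [phi_pos_iff] at hz
      obtain ⟨hz1, hz2⟩ := hz
      have hzodd : ∀ i, Odd (z i) → z i = od i := by
        intro i hi
        refine eq_of_near (by simp [hi, hod i]) (hz1 i) ?_
        rw [hso i]; linarith [hs0 i]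
      have hzev : ∀ i, ¬ Odd (z i) → z i = ev i := by
        intro i hi
        refine eq_of_near (by simp only [hi, hev i]) (hz1 i) ?_
        rw [hse i]; exact hs1 i
      have hlt : ∀ i i', Odd (z i) → ¬ Odd (z i') → s i' < s i := by
        intro i i' hi hi'
        have := hz2 i i' hi hi'
        rw [hzodd i hi, hzev i' hi', hso, hse] at this
        linarith
      let A : Finset (Fin d) := univ.filter fun k => Odd (z (σ k))
      have hA : ∀ a ∈ A, ∀ b, b ≤ a → b ∈ A := by
        intro a ha b hb
        simp only [A, Finset.mem_filter, Finset.mem_univ, true_and] at ha ⊢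
        by_contra hc
        have h1 := hlt _ _ ha hc
        have h2 := hmono hb
        simp only [Function.comp_apply] at h2
        linarith
      have hAcard : A.card < d + 1 := by
        have := Finset.card_le_univ A
        rw [Fintype.card_fin] at this
        omega
      refine ⟨⟨A.card, hAcard⟩, ?_⟩
      funext i
      have hi := lower_eq A hA (σ.symm i)
      have hi' : σ.symm i ∈ A ↔ Odd (z i) := by simp [A]
      rw [hi'] at hi
      by_cases h : Odd (z i)
      · rw [hzodd i h]
        simp only [w]
        rw [if_pos (hi.1 h)]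
      · rw [hzev i h]
        simp only [w]
        rw [if_neg (fun h' => h (hi.2 h'))]

end Run7.h898.PACH
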