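import Mathlib
import Pool.Agent.Run7.h940.PACH.Iface

set_option autoImplicit false

namespace Run7.h898.PACH

open Run7.h940.PACH Finset Module

/-- Weights for a point in the convex hull of a finite family. -/
theorem exists_weights {V : Type} [AddCommGroup V] [Module ℝ V] {ι : Type} [Fintype ι]
    {x : ι → V} {v : V} (h : v ∈ convexHull ℝ (Set.range x)) :
    ∃ w : ι → ℝ, (∀ i, 0 ≤ w i) ∧ ∑ i, w i = 1 ∧ ∑ i, w i • x i = v := by
  classical
  rw [convexHull_range_eq_exists_affineCombination] at h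
  obtain ⟨s, w, hw0, hw1, hw⟩ := h
  rw [affineCombination_eq_linear_combination s x w hw1] at hw
  refine ⟨fun i => if i ∈ s then w i else 0, ?_, ?_, ?_⟩
  · intro i
    by_cases hi : i ∈ s
    · simp only [hi, if_true]; exact hw0 i hi
    · simp [hi]
  · rw [← hw1]; simp
  · rw [← hw]; simp [ite_smul]

/-- In a good family every vector is a combination of the others. -/
theorem good_mem_span {V : Type} [AddCommGroup V] [Module ℝ V] {ι : Type} [Fintype ι]
    [DecidableEq ι] {x : ι → V} (hx : Good x) (i : ι) :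
    x i ∈ Submodule.span ℝ (Set.range fun j : {j : ι // j ≠ i} => x j) := by
  obtain ⟨h0, hli⟩ := hx
  obtain ⟨w, hw0, hw1, hw⟩ := exists_weights h0
  have hsplit : w i • x i + ∑ j : {j : ι // j ≠ i}, w j • x j = 0 := by
    rw [← hw, Fintype.sum_eq_add_sum_subtype_ne (fun j => w j • x j) i]
  have hsplit1 : w i + ∑ j : {j : ι // j ≠ i}, w j = 1 := by
    rw [← hw1, Fintype.sum_eq_add_sum_subtype_ne (fun j => w j) i]
  have hwi : w i ≠ 0 := by
    intro h
    rw [h, zero_smul, zero_add] at hsplit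
    have := Fintype.linearIndependent_iff.1 (hli i) (fun j => w j) hsplit
    rw [h, Finset.sum_eq_zero (fun j _ => this j)] at hsplit1
    norm_num at hsplit1
  have hxi : x i = -((w i)⁻¹ • ∑ j : {j : ι // j ≠ i}, w j • x j) := by
    have : w i • x i = -∑ j : {j : ι // j ≠ i}, w j • x j := eq_neg_of_add_eq_zero_left hsplit
    rw [← smul_neg, ← this, smul_smul, inv_mul_cancel₀ hwi, one_smul]
  rw [hxi]
  refine Submodule.neg_mem _ (Submodule.smul_mem _ _ (Submodule.sum_mem _ fun j _ => ?_))
  exact Submodule.smul_mem _ _ (Submodule.subset_span ⟨j, rfl⟩)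

theorem good_span {V : Type} [AddCommGroup V] [Module ℝ V] {ι : Type} [Fintype ι]
    [DecidableEq ι] {x : ι → V} (hx : Good x) (i : ι) :
    Submodule.span ℝ (Set.range x) =
      Submodule.span ℝ (Set.range fun j : {j : ι // j ≠ i} => x j) := by
  apply le_antisymm
  · rw [Submodule.span_le]
    rintro _ ⟨j, rfl⟩
    by_cases h : j = i
    · subst h; exact good_mem_span hx j
    · exact Submodule.subset_span ⟨⟨j, h⟩, rfl⟩
  · apply Submodule.span_mono
    rintro _ ⟨j, rfl⟩
    exact ⟨j, rfl⟩

theorem good_finrank {V : Type} [AddCommGroup V] [Module ℝ V] {ι : Type} [Fintype ι]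
    [DecidableEq ι] {x : ι → V} (hx : Good x) (i : ι) :
    finrank ℝ (Submodule.span ℝ (Set.range x)) = Fintype.card ι - 1 := by
  rw [good_span hx i, finrank_span_eq_card (hx.2 i)]
  simp

/-- `Good` and convex hulls along an injective linear map. -/
theorem zero_mem_hull_iff {V : Type} [AddCommGroup V] [Module ℝ V] {W : Submodule ℝ V}
    {ι : Type} (y : ι → W) :
    (0 : W) ∈ convexHull ℝ (Set.range y) ↔
      (0 : V) ∈ convexHull ℝ (Set.range fun i => (y i : V)) := by
  have h : (Set.range fun i => (y i : V)) = W.subtype '' Set.range y := by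
    ext v; simp
  rw [h, ← LinearMap.image_convexHull]
  constructor
  · intro h0
    exact ⟨0, h0, by simp⟩
  · rintro ⟨z, hz, hz0⟩
    have : z = 0 := by
      apply Subtype.ext
      simpa using hz0
    rwa [this] at hz

theorem t_SUB : S_HOM → S_SUB := by
  intro hom k α hα
  obtain ⟨c₀, hc₀, hom⟩ := hom (k - 1) α hα
  refine ⟨α * c₀, mul_pos hα hc₀, ?_⟩
  intro V _ _ _ ι _ _ hk C G W hC hG hcard hgood
  classical
  -- a tuple of `G`
  have hprod : 0 < ∏ i, ((C i).card : ℝ) :=
    Finset.prod_pos fun i _ => by exact_mod_cast (hC i).card_pos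
  have hGpos : 0 < (G.card : ℝ) := lt_of_lt_of_le (mul_pos hα hprod) hcard
  obtain ⟨x₀, hx₀⟩ : G.Nonempty := by
    rw [← Finset.card_pos]; exact_mod_cast hGpos
  have hmemW : ∀ x ∈ G, ∀ i, x i ∈ W := by
    intro x hx i
    rw [← (hgood x hx).2]
    exact Submodule.subset_span ⟨i, rfl⟩
  -- `ι` is nonempty
  have hne : Nonempty ι := by
    have h0 := (hgood x₀ hx₀).1.1
    have : (Set.range x₀).Nonempty := by
      rw [← convexHull_nonempty_iff (𝕜 := ℝ)]
      exact ⟨0, h0⟩
    exact Set.range_nonempty_iff_nonempty.1 this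
  obtain ⟨i₀⟩ := hne
  have hkpos : 0 < k := by rw [← hk]; exact Fintype.card_pos_iff.2 ⟨i₀⟩
  have hrank : finrank ℝ W = k - 1 := by
    rw [← (hgood x₀ hx₀).2, good_finrank (hgood x₀ hx₀).1 i₀, hk]
  -- the sets in `W`
  let C' : ι → Finset W := fun i => (C i).preimage (Subtype.val : W → V)
    Subtype.val_injective.injOn
  have hinj : Function.Injective (fun (y : ι → W) (i : ι) => (y i : V)) := by
    intro y y' h
    funext i
    exact Subtype.ext (congrFun h i)
  let G' : Finset (ι → W) := G.preimage (fun (y : ι → W) (i : ι) => (y i : V)) hinj.injOn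
  have hC'mem : ∀ i (v : W), v ∈ C' i ↔ (v : V) ∈ C i := by
    intro i v; simp [C']
  have hG'mem : ∀ y : ι → W, y ∈ G' ↔ (fun i => (y i : V)) ∈ G := by
    intro y; simp [G']
  have hC'ne : ∀ i, (C' i).Nonempty := by
    intro i
    refine ⟨⟨x₀ i, hmemW x₀ hx₀ i⟩, ?_⟩
    rw [hC'mem]
    exact Fintype.mem_piFinset.1 (hG hx₀) i
  have hG'sub : G' ⊆ Fintype.piFinset C' := by
    intro y hy
    rw [hG'mem] at hy
    rw [Fintype.mem_piFinset]
    intro i
    rw [hC'mem]
    exact Fintype.mem_piFinset.1 (hG hy) i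
  have hC'card : ∀ i, (C' i).card ≤ (C i).card := by
    intro i
    apply Finset.card_le_card_of_injOn (fun v : W => (v : V))
    · intro v hv
      exact (hC'mem i v).1 (by simpa using hv)
    · exact Subtype.val_injective.injOn
  have hG'card : G.card ≤ G'.card := by
    have : G ⊆ G'.image (fun (y : ι → W) (i : ι) => (y i : V)) := by
      intro x hx
      rw [Finset.mem_image]
      refine ⟨fun i => ⟨x i, hmemW x hx i⟩, ?_, rfl⟩
      rw [hG'mem]
      exact hx
    exact (Finset.card_le_card this).trans Finset.card_image_le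
  have hG'card' : (G.card : ℝ) ≤ (G'.card : ℝ) := by exact_mod_cast hG'card
  have hprod' : ∏ i, ((C' i).card : ℝ) ≤ ∏ i, ((C i).card : ℝ) :=
    Finset.prod_le_prod (fun i _ => by positivity) fun i _ => by exact_mod_cast hC'card i
  have hdens : α * ∏ i, ((C' i).card : ℝ) ≤ G'.card :=
    (mul_le_mul_of_nonneg_left hprod' hα.le).trans (hcard.trans hG'card')
  have hgood' : ∀ y ∈ G', Good y := by
    intro y hy
    rw [hG'mem] at hy
    obtain ⟨h0, hli⟩ := (hgood _ hy).1
    refine ⟨(zero_mem_hull_iff y).2 h0, fun i => ?_⟩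
    exact LinearIndependent.of_comp W.subtype (hli i)
  obtain ⟨D', hD', hD0⟩ := hom W ι hrank (by omega) C' G' hC'ne hG'sub hdens hgood'
  refine ⟨fun i => (D' i).map ⟨Subtype.val, Subtype.val_injective⟩, fun i => ⟨?_, ?_⟩, ?_⟩
  · intro v hv
    rw [Finset.mem_map] at hv
    obtain ⟨w, hw, rfl⟩ := hv
    exact (hC'mem i w).1 ((hD' i).1 hw)
  · rw [Finset.card_map]
    refine le_trans ?_ (hD' i).2
    -- `α |C i| ≤ |C' i|`
    have hkey : α * ((C i).card : ℝ) ≤ ((C' i).card : ℝ) := by
      have h1 : α * ∏ j, ((C j).card : ℝ) ≤ ∏ j, ((C' j).card : ℝ) := by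
        refine hcard.trans (hG'card'.trans ?_)
        have := Finset.card_le_card hG'sub
        rw [Fintype.card_piFinset] at this
        exact_mod_cast this
      rw [← Finset.mul_prod_erase univ (fun j => ((C j).card : ℝ)) (Finset.mem_univ i),
        ← Finset.mul_prod_erase univ (fun j => ((C' j).card : ℝ)) (Finset.mem_univ i)] at h1
      have h2 : ∏ j ∈ univ.erase i, ((C' j).card : ℝ) ≤ ∏ j ∈ univ.erase i, ((C j).card : ℝ) :=
        Finset.prod_le_prod (fun i _ => by positivity) fun i _ => by exact_mod_cast hC'card i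
      have h3 : 0 < ∏ j ∈ univ.erase i, ((C j).card : ℝ) :=
        Finset.prod_pos fun i _ => by exact_mod_cast (hC i).card_pos
      have h4 : ((C' i).card : ℝ) * ∏ j ∈ univ.erase i, ((C' j).card : ℝ) ≤
          ((C' i).card : ℝ) * ∏ j ∈ univ.erase i, ((C j).card : ℝ) :=
        mul_le_mul_of_nonneg_left h2 (by positivity)
      have h5 := h1.trans h4
      rw [← mul_assoc] at h5
      exact le_of_mul_le_mul_right h5 h3
    calc α * c₀ * ((C i).card : ℝ) = c₀ * (α * ((C i).card : ℝ)) := by ring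
      _ ≤ c₀ * ((C' i).card : ℝ) := mul_le_mul_of_nonneg_left hkey hc₀.le
  · intro x hx
    have hx' : ∀ i, ∃ w : W, w ∈ D' i ∧ (w : V) = x i := by
      intro i
      have := hx i
      rw [Finset.mem_map] at this
      obtain ⟨w, hw, h⟩ := this
      exact ⟨w, hw, h⟩
    choose y hy hyx using hx'
    have h0 := (zero_mem_hull_iff y).1 (hD0 y hy)
    have : (fun i => (y i : V)) = x := funext hyx
    rwa [this] at h0

end Run7.h898.PACH
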